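import Pool.Agent.W345.VO.Stm

/-!
Part VO-ZW: `E` and `F` on vacuum vectors which are eigenvectors of `h 0`.
-/

namespace Pool.Agent.W368.VO

open Pool.Agent.W345.VO

universe u

variable {M : Type u} [AddCommGroup M] [Module ℂ M]

theorem bddE (ρ : Rep M) (w : M) : ∃ N : ℤ, ∀ n, N ≤ n → ρ.E n w = 0 := by
  have hw : w ∈ ⨆ d, ρ.deg d := by
    rw [ρ.internal.submodule_iSup_eq_top]
    exact Submodule.mem_top
  refine Submodule.iSup_induction ρ.deg (motive := fun w => ∃ N : ℤ, ∀ n, N ≤ n → ρ.E n w = 0)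
    hw ?_ ?_ ?_
  · intro d x hx
    refine ⟨d, fun n hn => (ρ.E_deg n d x hx).2 (by omega)⟩
  · exact ⟨0, fun n _ => map_zero _⟩
  · rintro x y ⟨N, hN⟩ ⟨N', hN'⟩
    refine ⟨max N N', fun n hn => ?_⟩
    rw [map_add, hN n (le_trans (le_max_left _ _) hn), hN' n (le_trans (le_max_right _ _) hn),
      add_zero]

theorem bddF (ρ : Rep M) (w : M) : ∃ N : ℤ, ∀ n, N ≤ n → ρ.F n w = 0 := by
  have hw : w ∈ ⨆ d, ρ.deg d := by
    rw [ρ.internal.submodule_iSup_eq_top]
    exact Submodule.mem_top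
  refine Submodule.iSup_induction ρ.deg (motive := fun w => ∃ N : ℤ, ∀ n, N ≤ n → ρ.F n w = 0)
    hw ?_ ?_ ?_
  · intro d x hx
    refine ⟨d + 2, fun n hn => (ρ.F_deg n d x hx).2 (by omega)⟩
  · exact ⟨0, fun n _ => map_zero _⟩
  · rintro x y ⟨N, hN⟩ ⟨N', hN'⟩
    refine ⟨max N N', fun n hn => ?_⟩
    rw [map_add, hN n (le_trans (le_max_left _ _) hn), hN' n (le_trans (le_max_right _ _) hn),
      add_zero]

omit [Module ℂ M] in
/-- downward induction from a bound -/
theorem down {f : ℤ → M} {c : ℤ} (hb : ∃ N : ℤ, ∀ n, N ≤ n → f n = 0)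
    (hs : ∀ n, c < n → (∀ n', n < n' → f n' = 0) → f n = 0) : ∀ n, c < n → f n = 0 := by
  obtain ⟨N, hN⟩ := hb
  have key : ∀ j : ℕ, ∀ n : ℤ, c < n → N - j ≤ n → f n = 0 := by
    intro j
    induction j with
    | zero => intro n _ hn; exact hN n (by simpa using hn)
    | succ j ih =>
      intro n hc hn
      apply hs n hc
      intro n' hn'
      exact ih n' (by omega) (by push_cast at hn; omega)
  intro n hn
  exact key (N - n).toNat n hn (by omega)

theorem stepE (ρ : Rep M) (k : ℤ) (y : M) (hO : ρ.Om y) (h0 : ρ.h 0 y = (k : ℂ) • y)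
    (n : ℤ) (hn : ∀ n', n < n' → ρ.E n' y = 0) : ((k + n + 1 : ℤ) : ℂ) • ρ.E n y = 0 := by
  have h := ρ.TE (n + 1) y
  rw [finsum_eq_single _ 0] at h
  · simp only [Nat.cast_zero, add_zero, sub_zero] at h
    rw [hn (n + 1) (by omega), map_zero, zero_add, h0, map_smul, add_sub_cancel_right] at h
    have h2 : ((k + n + 1 : ℤ) : ℂ) • ρ.E n y =
        (k : ℂ) • ρ.E n y - (-((n + 1 : ℤ) : ℂ)) • ρ.E n y := by
      rw [← sub_smul]
      congr 1
      push_cast
      ring
    rw [h2, h, sub_self]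
  · intro i hi
    rw [hn (n + 1 + i) (by omega), map_zero, hO i (by omega), map_zero, add_zero]

theorem stepF (ρ : Rep M) (k : ℤ) (y : M) (hO : ρ.Om y) (h0 : ρ.h 0 y = (k : ℂ) • y)
    (n : ℤ) (hn : ∀ n', n < n' → ρ.F n' y = 0) : ((k - n - 1 : ℤ) : ℂ) • ρ.F n y = 0 := by
  have h := ρ.TF (n + 1) y
  rw [finsum_eq_single _ 0] at h
  · simp only [Nat.cast_zero, add_zero, sub_zero] at h
    rw [hn (n + 1) (by omega), map_zero, zero_add, h0, map_smul, add_sub_cancel_right] at h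
    have h2 : ((k - n - 1 : ℤ) : ℂ) • ρ.F n y =
        (k : ℂ) • ρ.F n y - ((n + 1 : ℤ) : ℂ) • ρ.F n y := by
      rw [← sub_smul]
      congr 1
      push_cast
      ring
    rw [h2, h, sub_self]
  · intro i hi
    rw [hn (n + 1 + i) (by omega), map_zero, hO i (by omega), map_zero, add_zero]

theorem zw : S_ZW.{u} := by
  intro M _ _ ρ k y hO h0
  have hE0 : ∀ n : ℤ, -k - 1 < n → ρ.E n y = 0 := by
    refine down (bddE ρ y) fun n hn hn' => ?_
    have h := stepE ρ k y hO h0 n hn'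
    rcases smul_eq_zero.1 h with h | h
    · exfalso
      have : k + n + 1 = 0 := by exact_mod_cast h
      omega
    · exact h
  have hF0 : ∀ n : ℤ, k - 1 < n → ρ.F n y = 0 := by
    refine down (bddF ρ y) fun n hn hn' => ?_
    have h := stepF ρ k y hO h0 n hn'
    rcases smul_eq_zero.1 h with h | h
    · exfalso
      have : k - n - 1 = 0 := by exact_mod_cast h
      omega
    · exact h
  refine ⟨hE0, hF0, ?_, ?_, ?_, ?_, ?_, ?_⟩
  · intro l hl
    have h := ρ.hE l (-k - 1) y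
    rw [hO l hl, map_zero, sub_zero, hE0 (l + (-k - 1)) (by omega), smul_zero] at h
    exact h
  · have h := ρ.hE 0 (-k - 1) y
    rw [h0, map_smul, zero_add, sub_eq_iff_eq_add] at h
    rw [h, ← add_smul]
    congr 1
    push_cast
    ring
  · intro l hl
    have h := ρ.hF l (k - 1) y
    rw [hO l hl, map_zero, sub_zero, hF0 (l + (k - 1)) (by omega), smul_zero] at h
    exact h
  · have h := ρ.hF 0 (k - 1) y
    rw [h0, map_smul, zero_add, sub_eq_iff_eq_add] at h
    rw [h, ← add_smul]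
    congr 1
    push_cast
    ring
  · have h := ρ.EF (-k - 1) (k + 1) y
    rw [hF0 (k + 1) (by omega), map_zero, zero_sub, show (-k - 1) + (k + 1) = 0 by ring, h0,
      if_pos rfl, ← add_smul] at h
    have h2 : ((k : ℂ) + ((-k - 1 : ℤ) : ℂ)) = -1 := by push_cast; ring
    rw [h2, neg_smul, one_smul] at h
    exact neg_injective h
  · have h := ρ.EF (-k + 1) (k - 1) y
    rw [hE0 (-k + 1) (by omega), map_zero, sub_zero, show (-k + 1) + (k - 1) = 0 by ring, h0,
      if_pos rfl, ← add_smul] at h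
    have h2 : ((k : ℂ) + ((-k + 1 : ℤ) : ℂ)) = 1 := by push_cast; ring
    rw [h2, one_smul] at h
    exact h

end Pool.Agent.W368.VO
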